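import Pool.Agent.AEV.Star

/-!
# Covering by stars, and the exchange of centres

`(σ, h, l)` is a star: `σ` is the direction of the arcs, `h` the host of the centre, `l` the list of the neighbours.
-/

set_option autoImplicit false

namespace AEV

open Finset AE15 AED AELT
open scoped Classical

/-- the vertex `v` can be the centre of the star -/
def FitS {V : Type} (R : V → V → Prop) (p : Bool × V × List V) (v : V) : Prop := ∀ x ∈ p.2.2, Adj R p.1 x v

/-- the number of the stars with direction `σ` the centre of which can be `v` -/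
noncomputable def nfit {V : Type} (R : V → V → Prop) (L : List (Bool × V × List V)) (σ : Bool) (v : V) : ℕ :=
  (L.filter (fun p => decide (p.1 = σ ∧ FitS R p v))).length

/-- the potential -/
noncomputable def pot {V : Type} (R : V → V → Prop) (X A : Finset V) (L : List (Bool × V × List V)) (σ : Bool) : ℝ :=
  ∑ v ∈ X.filter (fun v => Tp R X A σ v), (1 / 2 : ℝ) ^ nfit R L σ v

theorem pot_nonneg {V : Type} (R : V → V → Prop) (X A : Finset V) (L : List (Bool × V × List V)) (σ : Bool) :
    0 ≤ pot R X A L σ := sum_nonneg fun _ _ => by positivity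

theorem pot_nil {V : Type} (R : V → V → Prop) (X A : Finset V) (σ : Bool) : pot R X A [] σ ≤ X.card := by
  unfold pot
  simp only [nfit, List.filter_nil, List.length_nil, pow_zero, sum_const, nsmul_eq_mul, mul_one]
  exact_mod_cast card_le_card (filter_subset _ _)

theorem nfit_other {V : Type} {R : V → V → Prop} {L : List (Bool × V × List V)} {σ : Bool} {p : Bool × V × List V}
    (h : p.1 ≠ σ) (v : V) : nfit R (p :: L) σ v = nfit R L σ v := by
  unfold nfit
  rw [List.filter_cons_of_neg]
  simp [h]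

theorem pot_other {V : Type} {R : V → V → Prop} {X A : Finset V} {L : List (Bool × V × List V)} {σ : Bool}
    {p : Bool × V × List V} (h : p.1 ≠ σ) : pot R X A (p :: L) σ = pot R X A L σ := by
  unfold pot
  exact sum_congr rfl fun v _ => by rw [nfit_other h]

theorem nfit_cons {V : Type} {R : V → V → Prop} {L : List (Bool × V × List V)} {σ : Bool} {h : V} {l : List V} (v : V) :
    nfit R ((σ, h, l) :: L) σ v = nfit R L σ v + if ∀ x ∈ l, Adj R σ x v then 1 else 0 := by
  unfold nfit
  by_cases hf : ∀ x ∈ l, Adj R σ x v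
  · rw [if_pos hf, List.filter_cons_of_pos]
    · rfl
    · rw [decide_eq_true_eq]
      exact ⟨rfl, hf⟩
  · rw [if_neg hf, List.filter_cons_of_neg, add_zero]
    rw [decide_eq_true_eq]
    rintro ⟨-, h⟩
    exact hf h

/-- **the greedy step** -/
theorem cover_step (b : ℕ) {c : ℝ} (hc : 0 < c) : ∃ p μ : ℝ, 0 < p ∧ p ≤ 1 ∧ 0 < μ ∧ ∃ n₀ : ℕ,
    ∀ {V : Type} {R : V → V → Prop}, AE32.Tour R → ∀ (X A : Finset V), A ⊆ X → n₀ ≤ X.card → c * X.card ≤ (A.card : ℝ) →
      ∀ (σ : Bool) (L : List (Bool × V × List V)) (Bad : Finset V), (Bad.card : ℝ) ≤ μ * X.card → ∀ m ≤ b + 1,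
        ∃ h ∈ A, h ∉ Bad ∧ ∃ l : List V, l.length = m ∧ l.Nodup ∧
          (∀ x ∈ l, x ∈ X ∧ x ∉ Bad ∧ x ≠ h ∧ Adj R σ x h) ∧
          pot R X A ((σ, h, l) :: L) σ ≤ (1 - p / 2) * pot R X A L σ := by
  obtain ⟨p, μ, h1, h2, h3, n₀, h4⟩ := star b hc
  refine ⟨p, μ, h1, h2, h3, n₀, ?_⟩
  intro V R hT X A hAX hn hcA σ L Bad hBad m hm
  obtain ⟨h, g1, g2, l, g3, g4, g5, g6⟩ := h4 hT X A hAX hn hcA σ (fun v => (1 / 2 : ℝ) ^ nfit R L σ v)
    (fun v => by positivity) Bad hBad m hm
  refine ⟨h, g1, g2, l, g3, g4, g5, ?_⟩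
  have e1 : pot R X A ((σ, h, l) :: L) σ = pot R X A L σ -
      1 / 2 * ∑ v ∈ X.filter (fun v => Tp R X A σ v ∧ ∀ x ∈ l, Adj R σ x v), (1 / 2 : ℝ) ^ nfit R L σ v := by
    unfold pot
    have e2 : ∑ v ∈ X.filter (fun v => Tp R X A σ v ∧ ∀ x ∈ l, Adj R σ x v), (1 / 2 : ℝ) ^ nfit R L σ v =
        ∑ v ∈ X.filter (fun v => Tp R X A σ v), if ∀ x ∈ l, Adj R σ x v then (1 / 2 : ℝ) ^ nfit R L σ v else 0 := by
      rw [← sum_filter, filter_filter]
    rw [e2, mul_sum, ← sum_sub_distrib]
    refine sum_congr rfl fun v _ => ?_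
    rw [nfit_cons]
    by_cases hf : ∀ x ∈ l, Adj R σ x v
    · rw [if_pos hf, if_pos hf, pow_succ]
      ring
    · rw [if_neg hf, if_neg hf]
      ring
  rw [e1]
  have e3 : p * pot R X A L σ ≤
      ∑ v ∈ X.filter (fun v => Tp R X A σ v ∧ ∀ x ∈ l, Adj R σ x v), (1 / 2 : ℝ) ^ nfit R L σ v := g6
  linarith

/-- if the potential is small, every vertex fits many stars -/
theorem nfit_ge {V : Type} {R : V → V → Prop} {X A : Finset V} {L : List (Bool × V × List V)} {σ : Bool} {C : ℕ}
    (h : pot R X A L σ < (1 / 2) ^ C) {v : V} (hv : v ∈ X) (ht : Tp R X A σ v) : C ≤ nfit R L σ v := by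
  by_contra hcon
  push Not at hcon
  have h1 : (1 / 2 : ℝ) ^ nfit R L σ v ≤ pot R X A L σ := by
    unfold pot
    exact single_le_sum (f := fun v => (1 / 2 : ℝ) ^ nfit R L σ v) (fun _ _ => by positivity)
      (mem_filter.2 ⟨hv, ht⟩)
  have h2 : (1 / 2 : ℝ) ^ C ≤ (1 / 2) ^ nfit R L σ v := pow_le_pow_of_le_one (by norm_num) (by norm_num) hcon.le
  linarith

/-- the number of stars which is needed -/
theorem pot_num {p : ℝ} (hp : 0 < p) (hp1 : p ≤ 1) (C : ℕ) : ∃ K n₀ : ℕ, ∀ n k : ℕ, n₀ ≤ n → K * Real.log n ≤ k →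
    (1 - p / 2) ^ k * n < (1 / 2) ^ C := by
  obtain ⟨K, hK⟩ := exists_nat_ge (4 / p)
  obtain ⟨n₀, hn₀⟩ := exists_nat_ge (Real.exp (C + 1))
  refine ⟨K, n₀, ?_⟩
  intro n k hn hk
  have hn1 : Real.exp (C + 1) ≤ n := hn₀.trans (by exact_mod_cast hn)
  have hn0 : (0 : ℝ) < n := (Real.exp_pos _).trans_le hn1
  have hlog : (C : ℝ) + 1 ≤ Real.log n := by
    rw [Real.le_log_iff_exp_le hn0]
    exact hn1
  have hK' : 4 ≤ K * p := by
    rw [div_le_iff₀ hp] at hK
    linarith
  have h1 : (1 - p / 2) ^ k ≤ Real.exp (-(p / 2) * k) := by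
    have h2 : 1 - p / 2 ≤ Real.exp (-(p / 2)) := by
      have := Real.add_one_le_exp (-(p / 2))
      linarith
    calc (1 - p / 2) ^ k ≤ (Real.exp (-(p / 2))) ^ k := pow_le_pow_left₀ (by linarith) h2 k
      _ = Real.exp (-(p / 2) * k) := by rw [← Real.exp_nat_mul]; ring_nf
  have h3 : Real.exp (-(p / 2) * k) ≤ Real.exp (-(2 * Real.log n)) := by
    refine Real.exp_le_exp.2 ?_
    have hC : (0 : ℝ) ≤ C := Nat.cast_nonneg C
    have h4 : p / 2 * (K * Real.log n) ≤ p / 2 * k := mul_le_mul_of_nonneg_left hk (by positivity)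
    have h5 : 2 * Real.log n ≤ p / 2 * (K * Real.log n) := by nlinarith
    linarith
  have h6 : Real.exp (-(2 * Real.log n)) * n = Real.exp (-Real.log n) := by
    conv_lhs => rw [← Real.exp_log hn0]
    rw [← Real.exp_add, Real.exp_log hn0]
    congr 1
    ring
  have h7 : Real.exp (-Real.log n) ≤ Real.exp (-((C : ℝ) + 1)) := Real.exp_le_exp.2 (by linarith)
  have h8 : Real.exp (-((C : ℝ) + 1)) < (1 / 2) ^ C := by
    have h9 : Real.exp (-(1 : ℝ)) ≤ 1 / 2 := by
      rw [Real.exp_neg, one_div]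
      refine inv_anti₀ (by norm_num) ?_
      have := Real.add_one_le_exp (1 : ℝ)
      linarith
    have h10 : Real.exp (-(C : ℝ)) ≤ (1 / 2) ^ C := by
      calc Real.exp (-(C : ℝ)) = (Real.exp (-(1 : ℝ))) ^ C := by rw [← Real.exp_nat_mul]; ring_nf
        _ ≤ (1 / 2) ^ C := pow_le_pow_left₀ (Real.exp_pos _).le h9 C
    have h11 : Real.exp (-((C : ℝ) + 1)) < Real.exp (-(C : ℝ)) := Real.exp_lt_exp.2 (by linarith)
    linarith
  calc (1 - p / 2) ^ k * n ≤ Real.exp (-(2 * Real.log n)) * n := mul_le_mul_of_nonneg_right (h1.trans h3) hn0.le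
    _ = Real.exp (-Real.log n) := h6
    _ ≤ _ := h7
    _ < _ := h8

/-! ### The exchange -/

theorem Cen.perm {V : Type} {R : V → V → Prop} {L L' : List (Bool × List V)} (h : L.Perm L') :
    ∀ {S : Finset V}, Cen R L S → Cen R L' S := by
  induction h with
  | nil => intro S h; exact h
  | cons p _ ih =>
    intro S h
    obtain ⟨v, A, h1, h2, h3, h4⟩ := h
    exact ⟨v, A, h1, h2, h3, ih h4⟩
  | swap p q l =>
    intro S h
    obtain ⟨v, A, h1, rfl, h3, u, B, g1, rfl, g3, g4⟩ := h
    rw [mem_insert, not_or] at h1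
    refine ⟨u, insert v B, ?_, ?_, g3, v, B, h1.2, rfl, h3, g4⟩
    · rw [mem_insert, not_or]
      exact ⟨fun e => h1.1 e.symm, g1⟩
    · rw [insert_comm]
  | trans _ _ ih1 ih2 => intro S h; exact ih2 (ih1 h)

/-- the centres are on their hosts -/
theorem cen_self {V : Type} {R : V → V → Prop} (No : List (Bool × V × List V)) (hnd : (No.map (fun p => p.2.1)).Nodup)
    (h : ∀ p ∈ No, FitS R p p.2.1) : Cen R (No.map (fun p => (p.1, p.2.2))) (No.map (fun p => p.2.1)).toFinset := by
  induction No with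
  | nil => rfl
  | cons p No ih =>
    rw [List.map_cons, List.nodup_cons] at hnd
    refine ⟨p.2.1, (No.map (fun p => p.2.1)).toFinset, ?_, ?_, h p List.mem_cons_self,
      ih hnd.2 fun q hq => h q (List.mem_cons_of_mem _ hq)⟩
    · rw [List.mem_toFinset]
      exact hnd.1
    · rw [List.map_cons, List.toFinset_cons]

/-- **the exchange**: the vertices of `Lv` become centres of normal stars, the hosts of whose centres become centres of the
special stars -/
theorem cen_swap {V : Type} {R : V → V → Prop} (Sp : List (List V)) : ∀ (No : List (Bool × V × List V)) (Lv : Finset V),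
    Lv.card = Sp.length → (No.map (fun p => p.2.1)).Nodup → (∀ p ∈ No, FitS R p p.2.1) →
    (∀ p ∈ No, ∀ xs ∈ Sp, ∀ x ∈ xs, Adj R true x p.2.1) → (∀ p ∈ No, p.2.1 ∉ Lv) →
    (∀ v ∈ Lv, Sp.length ≤ (No.filter (fun p => decide (FitS R p v))).length) →
    Cen R (Sp.map (fun xs => (true, xs)) ++ No.map (fun p => (p.1, p.2.2))) (Lv ∪ (No.map (fun p => p.2.1)).toFinset) := by
  induction Sp with
  | nil =>
    intro No Lv hc hnd h1 _ _ _
    rw [List.length_nil, card_eq_zero] at hc
    rw [hc, empty_union]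
    exact cen_self No hnd h1
  | cons xs Sp ih =>
    intro No Lv hc hnd h1 h2 h3 h4
    rw [List.length_cons] at hc
    obtain ⟨v, hv⟩ := card_pos.1 (by omega : 0 < Lv.card)
    have h5 := h4 v hv
    rw [List.length_cons] at h5
    obtain ⟨p, hp⟩ := List.exists_mem_of_length_pos (by omega : 0 < (No.filter (fun p => decide (FitS R p v))).length)
    rw [List.mem_filter, decide_eq_true_eq] at hp
    obtain ⟨hpN, hpv⟩ := hp
    have hperm : No.Perm (p :: No.erase p) := List.perm_cons_erase hpN
    have hndp : ((p :: No.erase p).map (fun p => p.2.1)).Nodup := (hperm.map _).nodup_iff.1 hnd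
    rw [List.map_cons, List.nodup_cons] at hndp
    have hmem : ∀ q ∈ No.erase p, q ∈ No := fun q hq => List.mem_of_mem_erase hq
    have h6 := ih (No.erase p) (Lv.erase v) (by rw [card_erase_of_mem hv]; omega) hndp.2
      (fun q hq => h1 q (hmem q hq)) (fun q hq xs' hxs' => h2 q (hmem q hq) xs' (List.mem_cons_of_mem _ hxs'))
      (fun q hq hqv => h3 q (hmem q hq) (mem_of_mem_erase hqv)) (fun u hu => by
        have h7 := h4 u (mem_of_mem_erase hu)
        rw [List.length_cons] at h7
        have h8 := (hperm.filter (fun p => decide (FitS R p u))).length_eq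
        have h9 : ((p :: No.erase p).filter (fun p => decide (FitS R p u))).length ≤
            ((No.erase p).filter (fun p => decide (FitS R p u))).length + 1 := by
          rw [List.filter_cons]
          split
          · rw [List.length_cons]
          · omega
        omega)
    -- the host of the centre of `p` goes to `xs`, `v` to `p`
    have h10 : Cen R ((true, xs) :: (p.1, p.2.2) :: (Sp.map (fun xs => (true, xs)) ++
        (No.erase p).map (fun p => (p.1, p.2.2)))) (Lv ∪ (No.map (fun p => p.2.1)).toFinset) := by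
      refine ⟨p.2.1, insert v (Lv.erase v ∪ ((No.erase p).map (fun p => p.2.1)).toFinset), ?_, ?_,
        h2 p hpN xs List.mem_cons_self, v, _, ?_, rfl, hpv, h6⟩
      · rw [mem_insert, mem_union, List.mem_toFinset]
        rintro (h | h | h)
        · exact h3 p hpN (h ▸ hv)
        · exact h3 p hpN (mem_of_mem_erase h)
        · exact hndp.1 h
      · have h11 : (No.map (fun p => p.2.1)).toFinset = insert p.2.1 ((No.erase p).map (fun p => p.2.1)).toFinset := by
          rw [← List.toFinset_cons, ← List.map_cons (f := fun p : Bool × V × List V => p.2.1)]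
          exact List.toFinset_eq_of_perm _ _ (hperm.map _)
        rw [h11]
        ext u
        simp only [mem_union, mem_insert, mem_erase]
        by_cases huv : u = v
        · subst huv
          tauto
        · tauto
      · rw [mem_union, List.mem_toFinset]
        rintro (h | h)
        · exact notMem_erase v Lv h
        · rw [List.mem_map] at h
          obtain ⟨q, hq, hqv⟩ := h
          exact h3 q (hmem q hq) (hqv ▸ hv)
    refine Cen.perm ?_ h10
    rw [List.map_cons, List.cons_append]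
    refine List.Perm.cons _ ?_
    refine (List.perm_middle.symm).trans ?_
    refine List.Perm.append_left _ ?_
    rw [← List.map_cons (f := fun p : Bool × V × List V => (p.1, p.2.2))]
    exact (hperm.map _).symm

end AEV
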