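import Pool.Agent.AEX.Four

/-!
# Unavoidable orientations: definitions

A gadget in a rooted tree consists of a vertex `b`, its child `x₀`, the child `y` of `x₀` (the centre) and the children
`x₁, …, x_m` of `y`; `a` is the parent of `b`. The arcs are `a → b`, `x₀ → b`, `c → b` for the other children `c` of `b`,
`x_l → c` for the other children `c` of all `x_l`, and all `x_l → y` (a sink) or all `y → x_l` (a source).
-/

namespace AEV

open Finset AE15 AED AELT
open scoped Classical

/-- labels of the gadgets: special sinks (their centre stays empty), sinks, sources -/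
inductive Lb : Type
  | sp : Lb
  | si : Lb
  | so : Lb
  deriving DecidableEq

/-- the direction of the arcs between the neighbours and the centre (`true`: towards the centre) -/
def Lb.sg : Lb → Bool
  | .sp => true
  | .si => true
  | .so => false

/-- forests with gadgets: `ys` are the children of the centre, `cx` the other children of `x₀`, `cb` the other children
of `b`, `s` the other trees at the common vertex (which is the vertex `a` of the gadget) -/
inductive Gk : Type
  | nil : Gk
  | node (d : Bool) (c s : Gk) : Gk
  | gad (l : Lb) (ys cx cb s : Gk) : Gk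

/-- the forest -/
def Gk.un : Gk → Fd
  | .nil => .nil
  | .node d c s => .node d c.un s.un
  | .gad l ys cx cb s => .node true (.node false (.node l.sg ys.un cx.un) cb.un) s.un

/-- all trees at the common vertex are ordinary and have an arc of direction `d` -/
def Gk.Top (d : Bool) : Gk → Prop
  | .nil => True
  | .node d' _ s => d' = d ∧ s.Top d
  | .gad _ _ _ _ _ => False

/-- all arcs from the roots of the trees to their children are directed away from the root -/
def Gk.Xs : Gk → Prop
  | .nil => True
  | .node _ c s => c.Top true ∧ s.Xs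
  | .gad _ _ _ _ _ => False

/-- well-formed -/
def Gk.Wf : Gk → Prop
  | .nil => True
  | .node _ c s => c.Wf ∧ s.Wf
  | .gad l ys cx cb s => ys.Top (!l.sg) ∧ ys.Xs ∧ cx.Top true ∧ cb.Top false ∧ ys.Wf ∧ cx.Wf ∧ cb.Wf ∧ s.Wf

/-- number of gadgets with label `l` -/
def Gk.cnt (l : Lb) : Gk → ℕ
  | .nil => 0
  | .node _ c s => c.cnt l + s.cnt l
  | .gad l' ys cx cb s => (if l' = l then 1 else 0) + (ys.cnt l + cx.cnt l + cb.cnt l + s.cnt l)

/-- no special gadget is below a normal one -/
def Gk.SF : Gk → Prop
  | .nil => True
  | .node _ c s => c.SF ∧ s.SF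
  | .gad l ys cx cb s => (l ≠ .sp → ys.cnt .sp + cx.cnt .sp + cb.cnt .sp = 0) ∧ ys.SF ∧ cx.SF ∧ cb.SF ∧ s.SF

/-- the component of the common vertex: the gadgets are cut off -/
def Gk.sk : Gk → Fd
  | .nil => .nil
  | .node d c s => .node d c.sk s.sk
  | .gad _ _ _ _ s => s.sk

variable {V : Type*} {R : V → V → Prop}

/-- forests hanging on given vertices, disjointly, covering `S` -/
def EmbT (R : V → V → Prop) : List (Fd × V) → Finset V → Prop
  | [], S => S = ∅
  | p :: T, S => ∃ A B, Disjoint A B ∧ S = A ∪ B ∧ Emb R p.1 p.2 A ∧ EmbT R T B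

/-- `S` is the set of the centres of stars with given neighbours; the flag is `true` for sinks -/
def Cen (R : V → V → Prop) : List (Bool × List V) → Finset V → Prop
  | [], S => S = ∅
  | p :: L, S => ∃ v A, v ∉ A ∧ S = insert v A ∧ (∀ x ∈ p.2, Adj R p.1 x v) ∧ Cen R L A

/-- an embedding of the forest `c` at `w` with holes: `P` is used, the forests of `T` hang on given vertices, the
centres of the stars of `L` are not yet placed -/
def Ctx (R : V → V → Prop) (c : Fd) (w : V) (P : Finset V) (T : List (Fd × V)) (L : List (Bool × List V)) : Prop :=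
  ∀ Q S, EmbT R T Q → Cen R L S → Disjoint P Q → Disjoint P S → Disjoint Q S → Emb R c w (P ∪ (Q ∪ S))

/-- `v` is of type `σ` with respect to `A` -/
def Tp (R : V → V → Prop) (X A : Finset V) (σ : Bool) (v : V) : Prop :=
  (A.card : ℝ) ^ 2 / 16 ≤ ∑ h ∈ A, ((X.filter (fun u => Adj R σ u h ∧ Adj R σ u v)).card : ℝ)

/-- the rooted statement for the giant part -/
def FitR (C : ℕ) (c : Fd) : Prop := ∀ {V : Type} {R : V → V → Prop}, AE32.Tour R → ∀ (X : Finset V) (N : V → Prop),
  c.size + 1 + C ≤ X.card → (X.card : ℝ) / 64 ≤ ((X.filter N).card : ℝ) → In R c N X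

/-- every tournament with exactly as many vertices contains the tree -/
def Exact (c : Fd) : Prop := ∀ {V : Type} {R : V → V → Prop}, AE32.Tour R → ∀ X : Finset V, X.card = c.size + 1 →
  In R c (fun _ => True) X

end AEV
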