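import Pool.Agent.AEV.Defs

/-!
# Exact embedding from the absorber
-/

set_option autoImplicit false

namespace AEV

open Finset AE15 AED AELT
open scoped Classical

/-- the statement of the absorber -/
def AbsSt (b C : ℕ) : Prop := ∃ (ζ : ℝ) (K n₀ : ℕ), 0 < ζ ∧ ∀ {V : Type} {R : V → V → Prop}, AE32.Tour R →
    ∀ X : Finset V, n₀ ≤ X.card → ∀ F : Gk, F.Wf → F.SF → F.un.len ≤ b → F.un.Deg b →
      (F.un.size : ℝ) + 1 ≤ ζ * X.card → F.cnt .sp = C → K * Real.log X.card ≤ F.cnt .si →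
        K * Real.log X.card ≤ F.cnt .so →
          ∃ (h : V) (W : Finset V), h ∈ W ∧ W ⊆ X ∧ W.card + C = F.un.size + 1 ∧
            (∀ d : Bool, (X.card : ℝ) / 32 ≤ (((X \ W).filter (fun v => Adj R d v h)).card : ℝ)) ∧
            ∀ L ⊆ X \ W, L.card = C → Emb R F.un h ((W ∪ L).erase h)

theorem exact_det_of (b C : ℕ) (hA : AbsSt b C) : ∃ (ζ : ℝ) (K n₀ : ℕ), 0 < ζ ∧ ∀ (d : Bool) (F : Gk) (c : Fd),
    F.Wf → F.SF →
    F.un.len ≤ b → F.un.Deg b → n₀ ≤ c.size → (F.un.size : ℝ) + 1 ≤ ζ * c.size → F.cnt .sp = C →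
      K * Real.log c.size ≤ F.cnt .si → K * Real.log c.size ≤ F.cnt .so → FitR C c → Exact (.node d F.un c) := by
  obtain ⟨ζ, K, n₀, hζ, h⟩ := hA
  refine ⟨min ζ (1 / 2), 2 * K, n₀ + 4, by positivity, ?_⟩
  intro d F c h1 h2 h3 h4 h5 h6 h7 h8 h9 h10 V R hT X hX
  simp only [Fd.size] at hX
  have hc4 : (4 : ℝ) ≤ c.size := by exact_mod_cast (by omega : 4 ≤ c.size)
  have hXR : (X.card : ℝ) = F.un.size + c.size + 1 + 1 := by exact_mod_cast hX
  have hF1 : (F.un.size : ℝ) + 1 ≤ ζ * c.size :=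
    h6.trans (mul_le_mul_of_nonneg_right (min_le_left _ _) (by linarith))
  have hF2 : (F.un.size : ℝ) + 1 ≤ 1 / 2 * c.size :=
    h6.trans (mul_le_mul_of_nonneg_right (min_le_right _ _) (by linarith))
  have hXc : (X.card : ℝ) ≤ 2 * c.size := by linarith
  have hcX : (c.size : ℝ) ≤ X.card := by
    have : (0 : ℝ) ≤ F.un.size := Nat.cast_nonneg _
    linarith
  have hlog : Real.log X.card ≤ 2 * Real.log c.size := by
    have e1 : Real.log X.card ≤ Real.log (c.size * c.size) := by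
      refine Real.log_le_log (by linarith) (hXc.trans ?_)
      nlinarith
    rw [Real.log_mul (by linarith) (by linarith)] at e1
    linarith
  have hK : (K : ℝ) * Real.log X.card ≤ ((2 * K : ℕ) : ℝ) * Real.log c.size := by
    have := mul_le_mul_of_nonneg_left hlog (Nat.cast_nonneg K : (0 : ℝ) ≤ K)
    push_cast
    linarith
  obtain ⟨y, W, w1, w2, w3, w4, w5⟩ := h hT X (by omega) F h1 h2 h3 h4
    (hF1.trans (mul_le_mul_of_nonneg_left hcX hζ.le)) h7 (hK.trans h8) (hK.trans h9)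
  -- the giant part
  have hX' : (X \ W).card = c.size + 1 + C := by
    rw [card_sdiff_of_subset w2]
    omega
  obtain ⟨x, hx, A, hAX, hxA, hN, hE⟩ := h10 hT (X \ W) (fun v => Adj R d v y) (by omega) (by
    refine le_trans ?_ (w4 d)
    have : ((X \ W).card : ℝ) ≤ X.card := by exact_mod_cast card_le_card sdiff_subset
    have h0 : (0 : ℝ) ≤ X.card := Nat.cast_nonneg _
    linarith)
  have hAc : A.card = c.size := hE.card
  -- the rest
  obtain ⟨L, hL⟩ : ∃ L, L = (X \ W) \ insert x A := ⟨_, rfl⟩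
  have hLX : L ⊆ X \ W := by rw [hL]; exact sdiff_subset
  have hLc : L.card = C := by
    rw [hL, card_sdiff_of_subset (insert_subset hx hAX), card_insert_of_notMem hxA]
    omega
  have hEF := w5 L hLX hLc
  rw [mem_sdiff] at hx
  refine ⟨x, hx.1, insert y ((W ∪ L).erase y ∪ A), ?_, ?_, trivial, ?_⟩
  · rw [insert_subset_iff, union_subset_iff]
    exact ⟨w2 w1, (erase_subset _ _).trans (union_subset w2 (hLX.trans sdiff_subset)), hAX.trans sdiff_subset⟩
  · rw [mem_insert, mem_union, mem_erase, mem_union]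
    rintro (rfl | ⟨-, h | h⟩ | h)
    · exact hx.2 w1
    · exact hx.2 h
    · rw [hL, mem_sdiff] at h
      exact h.2 (mem_insert_self _ _)
    · exact hxA h
  · refine ⟨y, (W ∪ L).erase y, A, hN, by simp, ?_, ?_, rfl, hEF, hE⟩
    · intro h
      exact (mem_sdiff.1 (hAX h)).2 w1
    · rw [disjoint_left]
      intro u hu huA
      rw [mem_erase, mem_union] at hu
      rcases hu.2 with h | h
      · exact (mem_sdiff.1 (hAX huA)).2 h
      · rw [hL, mem_sdiff] at h
        exact h.2 (mem_insert_of_mem huA)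

end AEV
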