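import Pool.Agent.AEV.Defs
import Pool.Agent.AEJ.Walk

/-!
# The frame lemma: common out-neighbours in tournaments
-/

namespace AEV

open Finset AE15 AED AELT
open scoped Classical

variable {V : Type} {R : V → V → Prop}

/-- pairs with few common out-neighbours are rare -/
theorem pairs_rare (hT : AE32.Tour R) (X : Finset V) (K : ℕ) :
    ∑ a ∈ X, (X.filter (fun x => (X.filter (fun b => R a b ∧ R x b)).card < K)).card ≤ X.card * (4 * K + 1) := by
  have hF1 : ∀ a, (X.filter (fun x => R a x ∧ (X.filter (fun b => R a b ∧ R x b)).card < K)).card ≤ 2 * K := by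
    intro a
    refine le_trans (card_le_card ?_) (AEJ.card_lt hT true (X.filter (fun b => R a b)) K)
    intro x hx
    rw [mem_filter] at hx
    rw [mem_filter, mem_filter]
    refine ⟨⟨hx.1, hx.2.1⟩, ?_⟩
    refine lt_of_eq_of_lt ?_ hx.2.2
    congr 1
    ext b
    simp only [nb, mem_filter, Adj, if_true]
    tauto
  have hF2 : ∑ a ∈ X, (X.filter (fun x => R x a ∧ (X.filter (fun b => R a b ∧ R x b)).card < K)).card =
      ∑ a ∈ X, (X.filter (fun x => R a x ∧ (X.filter (fun b => R a b ∧ R x b)).card < K)).card := by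
    simp only [card_filter]
    rw [sum_comm]
    refine sum_congr rfl fun x _ => sum_congr rfl fun a _ => ?_
    simp only [and_comm (a := R a _) (b := R x _)]
  have h1 : ∀ a ∈ X, (X.filter (fun x => (X.filter (fun b => R a b ∧ R x b)).card < K)).card ≤
      (X.filter (fun x => R a x ∧ (X.filter (fun b => R a b ∧ R x b)).card < K)).card +
      (X.filter (fun x => R x a ∧ (X.filter (fun b => R a b ∧ R x b)).card < K)).card + 1 := by
    intro a _
    have h2 : X.filter (fun x => (X.filter (fun b => R a b ∧ R x b)).card < K) ⊆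
        (X.filter (fun x => R a x ∧ (X.filter (fun b => R a b ∧ R x b)).card < K) ∪
        X.filter (fun x => R x a ∧ (X.filter (fun b => R a b ∧ R x b)).card < K)) ∪ {a} := by
      intro x hx
      rw [mem_filter] at hx
      by_cases hxa : x = a
      · exact mem_union_right _ (mem_singleton.2 hxa)
      · rcases hT.tot x a hxa with h | h
        · exact mem_union_left _ (mem_union_right _ (mem_filter.2 ⟨hx.1, h, hx.2⟩))
        · exact mem_union_left _ (mem_union_left _ (mem_filter.2 ⟨hx.1, h, hx.2⟩))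
    refine (card_le_card h2).trans ((card_union_le _ _).trans ?_)
    rw [card_singleton]
    exact Nat.add_le_add_right (card_union_le _ _) 1
  calc ∑ a ∈ X, (X.filter (fun x => (X.filter (fun b => R a b ∧ R x b)).card < K)).card
      ≤ ∑ a ∈ X, ((X.filter (fun x => R a x ∧ (X.filter (fun b => R a b ∧ R x b)).card < K)).card +
      (X.filter (fun x => R x a ∧ (X.filter (fun b => R a b ∧ R x b)).card < K)).card + 1) := sum_le_sum h1
    _ = 2 * ∑ a ∈ X, (X.filter (fun x => R a x ∧ (X.filter (fun b => R a b ∧ R x b)).card < K)).card + X.card := by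
        rw [sum_add_distrib, sum_add_distrib, hF2, sum_const, smul_eq_mul, mul_one]
        ring
    _ ≤ 2 * ∑ a ∈ X, (2 * K) + X.card := by
        have := sum_le_sum (fun a (_ : a ∈ X) => hF1 a)
        omega
    _ = X.card * (4 * K + 1) := by
        rw [sum_const, smul_eq_mul]
        ring

/-- **The frame lemma** -/
theorem frame {κ' κ₅ : ℝ} (h1 : 0 < κ') (h2 : 0 < κ₅) : ∃ κ : ℝ, 0 < κ ∧ ∃ n₀ : ℕ, ∀ {V : Type} {R : V → V → Prop},
    AE32.Tour R → ∀ X : Finset V, n₀ ≤ X.card → ∃ Z B : Finset V, Z ⊆ X ∧ B ⊆ X ∧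
      ((X \ Z).card : ℝ) ≤ κ₅ * X.card ∧
      (∀ b ∈ B, κ * X.card ≤ ((Z.filter (fun z => R z b)).card : ℝ)) ∧
      ∀ a ∈ Z, ((X.filter (fun x => ((B.filter (fun b => R a b ∧ R x b)).card : ℝ) < κ * X.card)).card : ℝ) ≤
        κ' * X.card := by
  obtain ⟨k, hk⟩ : ∃ k : ℝ, k = min κ' 1 := ⟨_, rfl⟩
  have k0 : 0 < k := by rw [hk]; exact lt_min h1 one_pos
  have k1 : k ≤ 1 := by rw [hk]; exact min_le_right _ _
  have kκ : k ≤ κ' := by rw [hk]; exact min_le_left _ _
  obtain ⟨τ, hτ⟩ : ∃ τ : ℝ, τ = κ₅ * k / 11 := ⟨_, rfl⟩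
  have τ0 : 0 < τ := by rw [hτ]; positivity
  obtain ⟨r, hr⟩ : ∃ r : ℝ, r = 96 / k := ⟨_, rfl⟩
  have hrk : r * k = 96 := by rw [hr]; field_simp
  have r1 : 1 ≤ r := by
    rw [hr, le_div_iff₀ k0]
    linarith
  have r0 : 0 < r := by linarith
  obtain ⟨J, hJ⟩ : ∃ J : ℕ, J = ⌈192 / k⌉₊ + 1 := ⟨_, rfl⟩
  have hJ1 : 192 < J * k := by
    have h3 : 192 / k ≤ (⌈192 / k⌉₊ : ℝ) := Nat.le_ceil _
    have h4 : 192 / k < (J : ℝ) := by
      rw [hJ]
      push_cast
      linarith
    rwa [div_lt_iff₀ k0] at h4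
  obtain ⟨κ₀, hκ₀⟩ : ∃ κ₀ : ℝ, κ₀ = τ / k / r ^ J := ⟨_, rfl⟩
  have κ00 : 0 < κ₀ := by rw [hκ₀]; positivity
  have hκJ : κ₀ * r ^ J = τ / k := by rw [hκ₀]; field_simp
  obtain ⟨κ, hκ⟩ : ∃ κ : ℝ, κ = min (κ₀ / 2) (3 * τ / 8) := ⟨_, rfl⟩
  have κ0 : 0 < κ := by rw [hκ]; exact lt_min (by positivity) (by positivity)
  have κa : κ ≤ κ₀ / 2 := by rw [hκ]; exact min_le_left _ _
  have κb : κ ≤ 3 * τ / 8 := by rw [hκ]; exact min_le_right _ _
  obtain ⟨n₀, hn₀⟩ := exists_nat_ge (1 / τ)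
  refine ⟨κ, κ0, n₀, ?_⟩
  intro V R hT X hX
  obtain ⟨n, hn⟩ : ∃ n : ℝ, n = (X.card : ℝ) := ⟨_, rfl⟩
  have hn1 : 1 ≤ τ * n := by
    have h3 : (n₀ : ℝ) ≤ n := by rw [hn]; exact_mod_cast hX
    have h4 : 1 / τ ≤ n := hn₀.trans h3
    rwa [div_le_iff₀' τ0] at h4
  have n0 : 0 < n := by
    by_contra h
    push Not at h
    have : τ * n ≤ 0 := mul_nonpos_of_nonneg_of_nonpos τ0.le h
    linarith
  rw [← hn]
  have hτk : τ * n ≤ τ / k * n := by
    apply mul_le_mul_of_nonneg_right _ n0.le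
    rw [le_div_iff₀ k0]
    nlinarith
  obtain ⟨K, hK⟩ : ∃ K : ℕ, K = ⌈τ * n⌉₊ := ⟨_, rfl⟩
  have hK1 : τ * n ≤ K := by rw [hK]; exact Nat.le_ceil _
  have hK2 : (K : ℝ) ≤ 2 * (τ * n) := by
    have : (K : ℝ) < τ * n + 1 := by rw [hK]; exact Nat.ceil_lt_add_one (by positivity)
    linarith
  -- the vertices with few bad partners
  obtain ⟨BP, hBP⟩ : ∃ BP : V → Finset V, BP = fun a => X.filter (fun x => (X.filter (fun b => R a b ∧ R x b)).card < K) :=
    ⟨_, rfl⟩
  obtain ⟨Z0, hZ0⟩ : ∃ Z0, Z0 = X.filter (fun a => ((BP a).card : ℝ) ≤ k * n) := ⟨_, rfl⟩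
  have hZ0X : Z0 ⊆ X := by rw [hZ0]; exact filter_subset _ _
  have hXZ0 : ((X \ Z0).card : ℝ) ≤ 10 * (τ / k * n) := by
    have h3 : ((X \ Z0).card : ℝ) * (k * n) ≤ ∑ a ∈ X \ Z0, ((BP a).card : ℝ) := by
      rw [← nsmul_eq_mul, ← sum_const]
      apply sum_le_sum
      intro a ha
      rw [mem_sdiff, hZ0, mem_filter] at ha
      by_contra hc
      push Not at hc
      exact ha.2 ⟨ha.1, hc.le⟩
    have h4 : ∑ a ∈ X \ Z0, ((BP a).card : ℝ) ≤ ∑ a ∈ X, ((BP a).card : ℝ) :=
      sum_le_sum_of_subset_of_nonneg sdiff_subset fun _ _ _ => Nat.cast_nonneg _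
    have h5 : ∑ a ∈ X, ((BP a).card : ℝ) ≤ n * (4 * K + 1) := by
      have h6 := pairs_rare hT X K
      rw [hBP, hn]
      exact_mod_cast h6
    have h7 : n * (4 * K + 1) ≤ n * (10 * (τ * n)) := by
      apply mul_le_mul_of_nonneg_left _ n0.le
      linarith
    have h8 : ((X \ Z0).card : ℝ) * (k * n) ≤ n * (10 * (τ * n)) := by linarith
    have h9 : ((X \ Z0).card : ℝ) * k ≤ 10 * (τ * n) := by
      have h10 : n * (((X \ Z0).card : ℝ) * k) ≤ n * (10 * (τ * n)) := by
        have : ((X \ Z0).card : ℝ) * (k * n) = n * (((X \ Z0).card : ℝ) * k) := by ring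
        linarith
      exact le_of_mul_le_mul_left h10 n0
    have h11 : 10 * (τ / k * n) = 10 * (τ * n) / k := by ring
    rw [h11, le_div_iff₀ k0]
    exact h9
  -- the vertices with few in-neighbours
  obtain ⟨Lt, hLt⟩ : ∃ Lt : ℝ → Finset V, Lt = fun t => X.filter (fun b => ((Z0.filter (fun z => R z b)).card : ℝ) < t) :=
    ⟨_, rfl⟩
  have hLtX : ∀ t, Lt t ⊆ X := by intro t; rw [hLt]; exact filter_subset _ _
  have hLmono : ∀ t t', t ≤ t' → Lt t ⊆ Lt t' := by
    intro t t' htt b hb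
    rw [hLt, mem_filter] at hb ⊢
    exact ⟨hb.1, hb.2.trans_le htt⟩
  have hLc : ∀ t, 0 ≤ t → t ≤ τ / k * n → ((Lt t).card : ℝ) ≤ 24 * (τ / k * n) := by
    intro t ht0 ht
    have h3 : (Lt t).card ≤ 2 * (⌈t⌉₊ + (X \ Z0).card) := by
      refine le_trans (card_le_card ?_) (AEJ.card_lt hT false X (⌈t⌉₊ + (X \ Z0).card))
      intro b hb
      rw [hLt, mem_filter] at hb
      rw [mem_filter]
      refine ⟨hb.1, ?_⟩
      have h4 : nb R false X b ⊆ Z0.filter (fun z => R z b) ∪ (X \ Z0) := by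
        intro z hz
        rw [nb, mem_filter] at hz
        have hz2 : R z b := by simpa [Adj] using hz.2
        by_cases hzZ : z ∈ Z0
        · exact mem_union_left _ (mem_filter.2 ⟨hzZ, hz2⟩)
        · exact mem_union_right _ (mem_sdiff.2 ⟨hz.1, hzZ⟩)
      have h5 := (card_le_card h4).trans (card_union_le _ _)
      have h6 : (Z0.filter (fun z => R z b)).card < ⌈t⌉₊ := Nat.lt_ceil.2 hb.2
      omega
    have h7 : (⌈t⌉₊ : ℝ) < t + 1 := Nat.ceil_lt_add_one ht0
    have h8 : ((Lt t).card : ℝ) ≤ 2 * ((⌈t⌉₊ : ℝ) + (X \ Z0).card) := by exact_mod_cast h3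
    linarith
  -- the vertices with many out-neighbours in `Lt t`
  obtain ⟨Rm, hRm⟩ : ∃ Rm : ℝ → Finset V, Rm = fun t => Z0.filter (fun a => τ * n / 2 <
      (((Lt t).filter (fun b => R a b)).card : ℝ)) := ⟨_, rfl⟩
  have hRc : ∀ t, 0 ≤ t → t ≤ τ / k * n → ((Rm t).card : ℝ) ≤ r * t / 2 := by
    intro t ht0 ht
    have h3 : ((Rm t).card : ℝ) * (τ * n / 2) ≤ ∑ a ∈ Rm t, (((Lt t).filter (fun b => R a b)).card : ℝ) := by
      rw [← nsmul_eq_mul, ← sum_const]
      apply sum_le_sum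
      intro a ha
      rw [hRm, mem_filter] at ha
      exact ha.2.le
    have h4 : ∑ a ∈ Rm t, (((Lt t).filter (fun b => R a b)).card : ℝ) ≤
        ∑ a ∈ Z0, (((Lt t).filter (fun b => R a b)).card : ℝ) :=
      sum_le_sum_of_subset_of_nonneg (by rw [hRm]; exact filter_subset _ _) fun _ _ _ => Nat.cast_nonneg _
    have h5 : ∑ a ∈ Z0, (((Lt t).filter (fun b => R a b)).card : ℝ) =
        ∑ b ∈ Lt t, ((Z0.filter (fun z => R z b)).card : ℝ) := by
      simp only [card_filter]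
      push_cast
      rw [sum_comm]
    have h6 : ∑ b ∈ Lt t, ((Z0.filter (fun z => R z b)).card : ℝ) ≤ (Lt t).card * t := by
      rw [← nsmul_eq_mul, ← sum_const]
      apply sum_le_sum
      intro b hb
      rw [hLt, mem_filter] at hb
      exact hb.2.le
    have h7 : ((Lt t).card : ℝ) * t ≤ 24 * (τ / k * n) * t := mul_le_mul_of_nonneg_right (hLc t ht0 ht) ht0
    have h8 : 24 * (τ / k * n) * t = (r * t / 2) * (τ * n / 2) := by
      rw [hr]
      field_simp
      ring
    have h9 : ((Rm t).card : ℝ) * (τ * n / 2) ≤ (r * t / 2) * (τ * n / 2) := by linarith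
    exact le_of_mul_le_mul_right h9 (by linarith)
  -- the thresholds
  have htj : ∀ j ≤ J, κ₀ * r ^ j * n ≤ τ / k * n := by
    intro j hj
    apply mul_le_mul_of_nonneg_right _ n0.le
    rw [← hκJ]
    exact mul_le_mul_of_nonneg_left (pow_le_pow_right₀ r1 hj) κ00.le
  have htj0 : ∀ j, 0 ≤ κ₀ * r ^ j * n := fun j => by positivity
  have htm : ∀ j, κ₀ * r ^ j * n ≤ κ₀ * r ^ (j + 1) * n := by
    intro j
    apply mul_le_mul_of_nonneg_right _ n0.le
    exact mul_le_mul_of_nonneg_left (pow_le_pow_right₀ r1 (Nat.le_succ j)) κ00.le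
  -- pigeonhole
  obtain ⟨j, hjJ, hj⟩ : ∃ j, j < J ∧ ((Lt (κ₀ * r ^ (j + 1) * n) \ Lt (κ₀ * r ^ j * n)).card : ℝ) ≤ τ * n / 8 := by
    by_contra hcon
    push Not at hcon
    have h3 : ∀ j ≤ J, (j : ℝ) * (τ * n / 8) ≤ ((Lt (κ₀ * r ^ j * n)).card : ℝ) := by
      intro j
      induction j with
      | zero =>
        intro _
        simp
      | succ j ih =>
        intro hj
        have h4 := ih (by omega)
        have h5 := hcon j (by omega)
        have h6 : (Lt (κ₀ * r ^ j * n)).card + (Lt (κ₀ * r ^ (j + 1) * n) \ Lt (κ₀ * r ^ j * n)).card =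
            (Lt (κ₀ * r ^ (j + 1) * n)).card := by
          rw [add_comm]
          exact card_sdiff_add_card_eq_card (hLmono _ _ (htm j))
        have h7 : ((Lt (κ₀ * r ^ j * n)).card : ℝ) + (Lt (κ₀ * r ^ (j + 1) * n) \ Lt (κ₀ * r ^ j * n)).card =
            (Lt (κ₀ * r ^ (j + 1) * n)).card := by exact_mod_cast h6
        push_cast
        linarith
    have h4 := h3 J le_rfl
    have h5 := hLc _ (htj0 J) (htj J le_rfl)
    have h6 : (J : ℝ) * (τ * n / 8) ≤ 24 * (τ / k * n) := h4.trans h5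
    have h7 : 24 * (τ / k * n) = 192 / k * (τ * n / 8) := by ring
    rw [h7] at h6
    have h8 : (J : ℝ) ≤ 192 / k := le_of_mul_le_mul_right h6 (by linarith)
    rw [le_div_iff₀ k0] at h8
    linarith
  obtain ⟨t, ht⟩ : ∃ t, t = κ₀ * r ^ j * n := ⟨_, rfl⟩
  obtain ⟨t', ht'⟩ : ∃ t', t' = κ₀ * r ^ (j + 1) * n := ⟨_, rfl⟩
  have htt' : t' = r * t := by rw [ht, ht', pow_succ]; ring
  have t0 : 0 ≤ t := by rw [ht]; exact htj0 j
  have t1 : t ≤ τ / k * n := by rw [ht]; exact htj j hjJ.le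
  have t1' : t' ≤ τ / k * n := by rw [ht']; exact htj (j + 1) hjJ
  rw [← ht, ← ht'] at hj
  have hR := hRc t t0 t1
  rw [← htt'] at hR
  refine ⟨Z0 \ Rm t, X \ Lt t', sdiff_subset.trans hZ0X, sdiff_subset, ?_, ?_, ?_⟩
  · have h3 : X \ (Z0 \ Rm t) ⊆ (X \ Z0) ∪ Rm t := by
      intro v hv
      rw [mem_sdiff, mem_sdiff] at hv
      rw [mem_union, mem_sdiff]
      tauto
    have h4 := (card_le_card h3).trans (card_union_le _ _)
    have h5 : ((X \ (Z0 \ Rm t)).card : ℝ) ≤ (X \ Z0).card + (Rm t).card := by exact_mod_cast h4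
    have h6 : 11 * (τ / k * n) = κ₅ * n := by
      rw [hτ]
      field_simp
    linarith
  · intro b hb
    rw [mem_sdiff, hLt, mem_filter] at hb
    have h3 : t' ≤ ((Z0.filter (fun z => R z b)).card : ℝ) := by
      by_contra hc
      push Not at hc
      exact hb.2 ⟨hb.1, hc⟩
    have h4 : Z0.filter (fun z => R z b) ⊆ (Z0 \ Rm t).filter (fun z => R z b) ∪ Rm t := by
      intro z hz
      rw [mem_filter] at hz
      by_cases h5 : z ∈ Rm t
      · exact mem_union_right _ h5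
      · exact mem_union_left _ (mem_filter.2 ⟨mem_sdiff.2 ⟨hz.1, h5⟩, hz.2⟩)
    have h5 := (card_le_card h4).trans (card_union_le _ _)
    have h6 : ((Z0.filter (fun z => R z b)).card : ℝ) ≤ ((Z0 \ Rm t).filter (fun z => R z b)).card + (Rm t).card := by
      exact_mod_cast h5
    have h7 : κ₀ * n ≤ t' := by
      rw [ht']
      apply mul_le_mul_of_nonneg_right _ n0.le
      have h8 : (1 : ℝ) ≤ r ^ (j + 1) := one_le_pow₀ r1
      nlinarith
    have h8 : κ * n ≤ κ₀ / 2 * n := mul_le_mul_of_nonneg_right κa n0.le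
    linarith
  · intro a ha
    rw [mem_sdiff] at ha
    have haZ : ((BP a).card : ℝ) ≤ k * n := by
      have := ha.1
      rw [hZ0, mem_filter] at this
      exact this.2
    have haR : (((Lt t).filter (fun b => R a b)).card : ℝ) ≤ τ * n / 2 := by
      by_contra hc
      push Not at hc
      apply ha.2
      rw [hRm, mem_filter]
      exact ⟨ha.1, hc⟩
    have hsub : X.filter (fun x => (((X \ Lt t').filter (fun b => R a b ∧ R x b)).card : ℝ) < κ * n) ⊆ BP a := by
      intro x hx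
      rw [mem_filter] at hx
      rw [hBP]
      simp only [mem_filter]
      refine ⟨hx.1, ?_⟩
      by_contra hc
      push Not at hc
      have h3 : (K : ℝ) ≤ ((X.filter (fun b => R a b ∧ R x b)).card : ℝ) := by exact_mod_cast hc
      have h4 : X.filter (fun b => R a b ∧ R x b) ⊆ (X \ Lt t').filter (fun b => R a b ∧ R x b) ∪
          ((Lt t).filter (fun b => R a b) ∪ (Lt t' \ Lt t)) := by
        intro b hb
        rw [mem_filter] at hb
        by_cases h5 : b ∈ Lt t'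
        · refine mem_union_right _ ?_
          by_cases h6 : b ∈ Lt t
          · exact mem_union_left _ (mem_filter.2 ⟨h6, hb.2.1⟩)
          · exact mem_union_right _ (mem_sdiff.2 ⟨h5, h6⟩)
        · exact mem_union_left _ (mem_filter.2 ⟨mem_sdiff.2 ⟨hb.1, h5⟩, hb.2⟩)
      have h5 := (card_le_card h4).trans ((card_union_le _ _).trans (Nat.add_le_add_left (card_union_le _ _) _))
      have h6 : ((X.filter (fun b => R a b ∧ R x b)).card : ℝ) ≤ ((X \ Lt t').filter (fun b => R a b ∧ R x b)).card +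
          (((Lt t).filter (fun b => R a b)).card + (Lt t' \ Lt t).card) := by exact_mod_cast h5
      have h7 : κ * n ≤ 3 * τ / 8 * n := mul_le_mul_of_nonneg_right κb n0.le
      have h8 := hx.2
      linarith
    have h3 : ((X.filter (fun x => (((X \ Lt t').filter (fun b => R a b ∧ R x b)).card : ℝ) < κ * n)).card : ℝ) ≤
        (BP a).card := by exact_mod_cast card_le_card hsub
    have h4 : k * n ≤ κ' * n := mul_le_mul_of_nonneg_right kκ n0.le
    linarith

end AEV
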