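import Pool.Agent.AEV.Defs
import Pool.Agent.AEJT.ClosJ

/-!
# The rooted statement for the giant part
-/

namespace AEV

open Finset AE15 AED AELT AEK AEJ AEJT
open scoped Classical

/-- the first step of a path -/
theorem ptT_head {k : ℕ} {p q : Bool × Fd} {m : ℕ} (h : AESK.PtT k p q m) :
    q = p ∨ ∃ r ∈ p.2.trees, k ≤ AESK.sz r ∧ ∃ m', AESK.PtT k r q m' := by
  induction h with
  | refl => exact Or.inl rfl
  | step q r m _ h2 h3 ih =>
    right
    rcases ih with rfl | ⟨r', h4, h5, m', h6⟩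
    · exact ⟨r, h2, h3, 0, AESK.PtT.refl⟩
    · exact ⟨r', h4, h5, _, AESK.PtT.step _ _ _ h6 h2 h3⟩

theorem lc_mono {K : ℕ} {θ θ' ε ε' : ℝ} {M : ℕ} (hθ : θ ≤ θ') (hε : ε' ≤ ε) {c : Fd} (h : Lc K θ' ε' M c) :
    Lc K θ ε M c := by
  induction h with
  | small c h => exact Lc.small c h
  | step c d0 q m a1 a2 a3 a4 a5 _ ih =>
    have h0 : (0 : ℝ) ≤ c.size + 1 := by positivity
    exact Lc.step c d0 q m a1 ((mul_le_mul_of_nonneg_right hθ h0).trans a2) a3
      (a4.trans (mul_le_mul_of_nonneg_right hε h0)) (a5.trans (mul_le_mul_of_nonneg_right hε h0)) ih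

/-- almost all vertices are admissible if only few vertices are joined to the root by directed paths -/
theorem adm_of_few {V : Type} {R : V → V → Prop} (hT : AE32.Tour R) {c : Fd} {X : Finset V} {N : V → Prop}
    (h1 : (dcl c : ℝ) + AEB.blk c ≤ 1 / 512 * X.card) (h2 : (3072 : ℝ) ≤ X.card)
    (h3 : (X.card : ℝ) / 64 ≤ ((X.filter N).card : ℝ)) :
    1 / 128 * (X.card : ℝ) ≤ ((Adm R (1 / 8192) (1 / 1024) c X N).card : ℝ) := by
  obtain ⟨T, hTr⟩ : ∃ T : V → Prop, ∀ v, T v := ⟨fun _ => True, fun _ => trivial⟩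
  have h4 := adm_mid hT (e := 1 / 1024) (by norm_num) c X (N := T) hTr
  have e1 : (1 / 1024 : ℝ) / 8 = 1 / 8192 := by norm_num
  rw [e1] at h4
  have h5 : X.filter N ⊆ Adm R (1 / 8192) (1 / 1024) c X N ∪ (X \ Adm R (1 / 8192) (1 / 1024) c X T) := by
    intro v hv
    rw [mem_filter] at hv
    by_cases h6 : v ∈ Adm R (1 / 8192) (1 / 1024) c X T
    · refine mem_union_left _ ?_
      unfold Adm at h6 ⊢
      rw [mem_filter] at h6 ⊢
      exact ⟨h6.1, hv.2, h6.2.2⟩
    · exact mem_union_right _ (mem_sdiff.2 ⟨hv.1, h6⟩)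
  have h6 := (card_le_card h5).trans (card_union_le _ _)
  have h7 : (X \ Adm R (1 / 8192) (1 / 1024) c X T).card +
      (Adm R (1 / 8192) (1 / 1024) c X T).card = X.card :=
    card_sdiff_add_card_eq_card (filter_subset _ _)
  have h8 : ((X.filter N).card : ℝ) ≤ (Adm R (1 / 8192) (1 / 1024) c X N).card +
      (X \ Adm R (1 / 8192) (1 / 1024) c X T).card := by exact_mod_cast h6
  have h9 : ((X \ Adm R (1 / 8192) (1 / 1024) c X T).card : ℝ) +
      (Adm R (1 / 8192) (1 / 1024) c X T).card = X.card := by exact_mod_cast h7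
  linarith

/-- **The rooted statement for the giant part**, from chains of branches with small reach -/
theorem fit_of_lc (b : ℕ) (hb : 1 ≤ b) : ∃ (K₀ : ℕ) (ε : ℝ), 0 < ε ∧ ∀ K ≥ K₀, ∀ θ : ℝ, 0 < θ → ∀ M : ℕ, ∃ C : ℕ,
    ∀ c cG cQ : Fd, ∀ d : Bool, c.len ≤ b → c.Deg b → c.trees.Perm ((d, cQ) :: cG.trees) → AEJT.Lc K θ ε M c →
      M ≤ c.size → (cQ.size : ℝ) + 1 < θ * (c.size + 1) → 2 * (cQ.size + 1) ≤ c.size → FitR C cG := by
  obtain ⟨k', e', be', hk, he, hbe, hJ⟩ := AEJ.jump0 b hb (θ := 1 / 2) (by norm_num) (by norm_num)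
  obtain ⟨k0, hk0, h0⟩ := hJ k' e' be' hk he hbe
  obtain ⟨k1, hk1, h1⟩ := hJ (1 / 8192) (1 / 1024) (1 / 128) (by norm_num) (by norm_num) (by norm_num)
  obtain ⟨K0, hK0⟩ := exists_nat_ge (max (1 / k0) (max (2 / k1) 2))
  refine ⟨K0, 1 / 4096, by norm_num, ?_⟩
  intro K hK θ' hθ' M
  have hKr : (K0 : ℝ) ≤ K := by exact_mod_cast hK
  have hKk0 : 1 ≤ k0 * K := by
    have h2 : 1 / k0 ≤ K := ((le_max_left _ _).trans hK0).trans hKr
    rw [div_le_iff₀ hk0] at h2
    linarith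
  have hKk1 : 2 ≤ k1 * K := by
    have h2 : 2 / k1 ≤ K := (((le_max_left _ _).trans (le_max_right _ _)).trans hK0).trans hKr
    rw [div_le_iff₀ hk1] at h2
    linarith
  have hK2 : (2 : ℝ) ≤ K := (((le_max_right _ _).trans (le_max_right _ _)).trans hK0).trans hKr
  obtain ⟨θ, hθd⟩ : ∃ θ, θ = min θ' 1 := ⟨_, rfl⟩
  have hθ : 0 < θ := by rw [hθd]; exact lt_min hθ' one_pos
  have hθ1 : θ ≤ 1 := by rw [hθd]; exact min_le_right _ _
  have hθθ : θ ≤ θ' := by rw [hθd]; exact min_le_left _ _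
  obtain ⟨C₁, hC₁⟩ := h0 θ hθ
  obtain ⟨C₂, hC₂⟩ := h1 θ hθ
  obtain ⟨C₃, hC₃⟩ := coarse_small hb (M := M / θ) hbe
  obtain ⟨C₄, hC₄⟩ := coarse_small hb (M := M / θ) (show (0 : ℝ) < 1 / 128 by norm_num)
  obtain ⟨C, hC⟩ : ∃ C : ℕ, C = ⌈max (max C₁ C₂) (max C₃ (max C₄ 3072))⌉₊ := ⟨_, rfl⟩
  have hC' : max (max C₁ C₂) (max C₃ (max C₄ 3072)) ≤ (C : ℝ) := by rw [hC]; exact Nat.le_ceil _
  have c1 : C₁ ≤ C := (le_max_left _ _).trans ((le_max_left _ _).trans hC')
  have c2 : C₂ ≤ C := (le_max_right _ _).trans ((le_max_left _ _).trans hC')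
  have c3 : C₃ ≤ C := (le_max_left _ _).trans ((le_max_right _ _).trans hC')
  have c4 : C₄ ≤ C := (le_max_left _ _).trans ((le_max_right _ _).trans ((le_max_right _ _).trans hC'))
  have c5 : (3072 : ℝ) ≤ C := (le_max_right _ _).trans ((le_max_right _ _).trans ((le_max_right _ _).trans hC'))
  refine ⟨C, ?_⟩
  intro c cG cQ d hl hD hperm hLc hMc hQ1 hQ2 V R hT X N hX hN
  -- the sizes
  have hsz : c.size = cQ.size + 1 + cG.size := by
    rw [Fd.size_eq, Fd.size_eq cG, (hperm.map _).sum_eq, List.map_cons, List.sum_cons]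
  have hdcl : dcl cG ≤ dcl c := by
    rw [dcl_eq, dcl_eq c, (hperm.map _).sum_eq, List.map_cons, List.sum_cons]
    omega
  have hblk : AEB.blk cG ≤ AEB.blk c := by
    rw [blk_eq, blk_eq c, (hperm.map _).sum_eq, List.map_cons, List.sum_cons]
    omega
  have hGl : cG.len ≤ b := by
    have h2 := hperm.length_eq
    rw [List.length_cons] at h2
    rw [Fd.len_eq] at hl ⊢
    omega
  have hGD : cG.Deg b := by
    rw [Fd.deg_iff] at hD ⊢
    intro t ht
    exact hD t (hperm.symm.subset (List.mem_cons_of_mem _ ht))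
  have hGs : (c.size : ℝ) + 1 ≤ 2 * (cG.size + 1) := by
    have h2 : c.size + 1 ≤ 2 * (cG.size + 1) := by omega
    exact_mod_cast h2
  have hcG : (cG.size : ℝ) ≤ c.size := by
    have h2 : cG.size ≤ c.size := by omega
    exact_mod_cast h2
  have hs0 : (0 : ℝ) ≤ cG.size := Nat.cast_nonneg _
  have hXr : (cG.size : ℝ) + 1 + C ≤ X.card := by exact_mod_cast hX
  -- the branch
  have hLc' : Lc K θ (1 / 8) M c := lc_mono hθθ (by norm_num) hLc
  cases hLc with
  | small _ h => omega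
  | step _ d0 q m a1 a2 a3 a4 a5 a6 =>
    obtain ⟨l, hl1, -⟩ := a1.spine
    obtain ⟨hql, hqD, -⟩ := AESK.spine_deg hl1 hl hD
    have hq3 : (K : ℝ) * (q.2.size + 1) ≤ c.size + 1 := by exact_mod_cast a3
    have hq0 : (0 : ℝ) ≤ q.2.size := Nat.cast_nonneg _
    have hpath : ∃ m', AESK.PtT 0 (d0, cG) q m' := by
      rcases ptT_head a1 with h | ⟨r, h2, -, m', h3⟩
      · exfalso
        rw [h] at hq3
        simp only at hq3
        have h4 : (0 : ℝ) ≤ c.size := Nat.cast_nonneg _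
        nlinarith
      · rcases List.mem_cons.1 (hperm.subset h2) with h4 | h4
        · exfalso
          rw [h4] at h3
          have h5 := h3.sz_le
          unfold AESK.sz at h5
          have h6 : (q.2.size : ℝ) + 1 ≤ cQ.size + 1 := by exact_mod_cast h5
          linarith
        · exact ⟨_, (AESK.PtT.step (d0, cG) r 0 AESK.PtT.refl h4 (Nat.zero_le _)).trans h3⟩
    obtain ⟨m', hpath⟩ := hpath
    have hadm : 1 / 128 * (X.card : ℝ) ≤ ((Adm R (1 / 8192) (1 / 1024) cG X N).card : ℝ) := by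
      apply adm_of_few hT _ (by linarith) hN
      have h2 : (dcl cG : ℝ) ≤ dcl c := by exact_mod_cast hdcl
      have h3 : (AEB.blk cG : ℝ) ≤ AEB.blk c := by exact_mod_cast hblk
      have h4 : (0 : ℝ) ≤ C := Nat.cast_nonneg _
      linarith
    rcases (lc_mono hθθ (by norm_num) a6 : Lc K θ (1 / 8) M q.2).window with hw | hw
    · have hqM : (q.2.size + 1 : ℝ) ≤ M := by exact_mod_cast hw
      have hsm : (cG.size + 1 : ℝ) ≤ M / θ := by
        rw [le_div_iff₀ hθ]
        have h2 : θ * ((cG.size : ℝ) + 1) ≤ θ' * (c.size + 1) := by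
          apply mul_le_mul hθθ (by linarith) (by linarith) hθ'.le
        linarith
      exact hC₄ C c4 _ _ cG hGl hGD hsm hT X N hXr hadm
    · have hco : Coarse k' e' be' C q.2 :=
        coarse_of_lc (K := K) (M := M) hθ hθ1 hKk0 hk0 (fun c hl hD hM => hC₃ C c3 k' e' c hl hD hM)
          (fun c q d0 m hl hD a1 a2 a3 a4 a5 => hC₁ C c1 c q d0 m hl hD a1 a2 a3 a4 a5)
          (lc_mono hθθ (by norm_num) a6) hql hqD
      refine hC₂ C c2 cG q d0 m' hGl hGD hpath ?_ ?_ hw hco hT X N hXr hadm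
      · have h2 : θ * ((cG.size : ℝ) + 1) ≤ θ' * (c.size + 1) := by
          apply mul_le_mul hθθ (by linarith) (by linarith) hθ'.le
        linarith
      · have h8 := mul_le_mul_of_nonneg_left hq3 hk1.le
        nlinarith

end AEV
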