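import Pool.Agent.AEV.Defs
import Pool.Agent.AE15.Structure

/-!
# Stars which fit a constant proportion of the vertices
-/

set_option autoImplicit false

namespace AEV

open Finset AE15 AED AELT
open scoped Classical

/-- averaging -/
theorem avgS {V : Type} {S T : Finset V} {w : V → ℝ} (hw : ∀ v, 0 ≤ w v) (r : V → V → Prop) {q N : ℝ}
    (hq : 0 ≤ q) (hS : S.Nonempty) (hN : (S.card : ℝ) ≤ N)
    (h : ∀ v ∈ T, q * N ≤ ((S.filter (fun x => r x v)).card : ℝ)) :
    ∃ x ∈ S, q * ∑ v ∈ T, w v ≤ ∑ v ∈ T.filter (fun v => r x v), w v := by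
  by_contra hcon
  push Not at hcon
  have h1 : ∑ x ∈ S, ∑ v ∈ T.filter (fun v => r x v), w v < ∑ x ∈ S, q * ∑ v ∈ T, w v :=
    sum_lt_sum_of_nonempty hS hcon
  have h2 : ∑ x ∈ S, ∑ v ∈ T.filter (fun v => r x v), w v = ∑ v ∈ T, w v * ((S.filter (fun x => r x v)).card : ℝ) := by
    simp only [sum_filter]
    rw [sum_comm]
    refine sum_congr rfl fun v _ => ?_
    rw [← sum_filter, sum_const, nsmul_eq_mul, mul_comm]
  have hW : 0 ≤ ∑ v ∈ T, w v := sum_nonneg fun v _ => hw v
  have h3 : q * N * ∑ v ∈ T, w v ≤ ∑ v ∈ T, w v * ((S.filter (fun x => r x v)).card : ℝ) := by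
    rw [mul_sum]
    refine sum_le_sum fun v hv => ?_
    rw [mul_comm]
    exact mul_le_mul_of_nonneg_left (h v hv) (hw v)
  rw [sum_const, nsmul_eq_mul] at h1
  have h4 : (S.card : ℝ) * (q * ∑ v ∈ T, w v) ≤ N * (q * ∑ v ∈ T, w v) :=
    mul_le_mul_of_nonneg_right hN (mul_nonneg hq hW)
  rw [h2] at h1
  linarith

theorem type_cover' {V : Type} {R : V → V → Prop} (hT : AE32.Tour R) {X A : Finset V} (hA : A ⊆ X) (h : 8 ≤ A.card)
    (v : V) : Tp R X A true v ∨ Tp R X A false v := by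
  -- the two parts
  have key : ∀ {R : V → V → Prop}, AE32.Tour R → (A.card - 1 : ℝ) / 2 ≤ ((A.filter (fun u => R u v)).card : ℝ) →
      Tp R X A true v := by
    intro R hT hB
    obtain ⟨B, hBd⟩ : ∃ B, B = A.filter (fun u => R u v) := ⟨_, rfl⟩
    rw [← hBd] at hB
    have h1 := two_mul_sum_nO hT B
    rw [sum_nO_eq_sum_nI] at h1
    have h2 : ∑ b ∈ B, ((nI R B b).card : ℝ) ≤
        ∑ h ∈ A, ((X.filter (fun u => Adj R true u h ∧ Adj R true u v)).card : ℝ) := by
      refine le_trans (sum_le_sum (f := fun b => ((nI R B b).card : ℝ))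
        (g := fun h => ((X.filter (fun u => Adj R true u h ∧ Adj R true u v)).card : ℝ)) fun b hb => ?_)
        (sum_le_sum_of_subset_of_nonneg (by rw [hBd]; exact filter_subset _ _) fun _ _ _ => Nat.cast_nonneg _)
      refine Nat.cast_le.2 (card_le_card fun u hu => ?_)
      rw [mem_nI, hBd, mem_filter] at hu
      simp only [mem_filter, Adj, if_true]
      exact ⟨hA hu.1.1, hu.2, hu.1.2⟩
    unfold Tp
    refine le_trans ?_ h2
    have h3 : (2 : ℝ) * ∑ b ∈ B, ((nI R B b).card : ℝ) = B.card * (B.card - 1 : ℝ) := by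
      rcases Nat.eq_zero_or_pos B.card with h0 | h0
      · rw [card_eq_zero] at h0
        rw [h0]
        simp
      · have h5 := congrArg (Nat.cast : ℕ → ℝ) h1
        rw [Nat.cast_mul, Nat.cast_mul, Nat.cast_sub h0, Nat.cast_sum] at h5
        simpa using h5
    have h4 : (8 : ℝ) ≤ A.card := by exact_mod_cast h
    nlinarith
  by_cases hB : (A.card - 1 : ℝ) / 2 ≤ ((A.filter (fun u => R u v)).card : ℝ)
  · exact Or.inl (key hT hB)
  · right
    have hT' : AE32.Tour (fun a b => R b a) := ⟨fun a => hT.irr a, fun a b hab => (hT.tot a b hab).symm,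
      fun a b hab => hT.asym b a hab⟩
    have h1 := key hT' (by
      have h2 : A.card ≤ (A.filter (fun u => R u v)).card + (A.filter (fun u => R v u)).card + 1 := by
        have h3 : A ⊆ (A.filter (fun u => R u v) ∪ A.filter (fun u => R v u)) ∪ {v} := by
          intro u hu
          simp only [mem_union, mem_filter, mem_singleton]
          by_cases huv : u = v
          · exact Or.inr huv
          · rcases hT.tot u v huv with h | h
            · exact Or.inl (Or.inl ⟨hu, h⟩)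
            · exact Or.inl (Or.inr ⟨hu, h⟩)
        refine (card_le_card h3).trans ((card_union_le _ _).trans ?_)
        rw [card_singleton]
        have := card_union_le (A.filter (fun u => R u v)) (A.filter (fun u => R v u))
        omega
      have h4 : (A.card : ℝ) ≤ (A.filter (fun u => R u v)).card + (A.filter (fun u => R v u)).card + 1 := by
        exact_mod_cast h2
      push Not at hB
      linarith)
    unfold Tp at h1 ⊢
    simpa [Adj] using h1

theorem type_cover {V : Type} {R : V → V → Prop} (hT : AE32.Tour R) {X A : Finset V} (hA : A ⊆ X) (h : 8 ≤ A.card)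
    {v : V} (_hv : v ∈ X) : Tp R X A true v ∨ Tp R X A false v := type_cover' hT hA h v

/-- the next neighbours of the centre -/
theorem star_aux {V : Type} {R : V → V → Prop} {X : Finset V} {w : V → ℝ} (hw : ∀ v, 0 ≤ w v) {Z T : Finset V}
    (hZX : Z ⊆ X) {q : ℝ} (hq : 0 < q) {j : ℕ} (hj : (j : ℝ) ≤ q * X.card)
    (h : ∀ v ∈ T, 2 * (q * X.card) ≤ ((Z.filter (fun x => R x v)).card : ℝ)) (hZ : (j : ℝ) < Z.card) (m : ℕ) (hm : m ≤ j) :
    ∃ l : List V, l.length = m ∧ l.Nodup ∧ (∀ x ∈ l, x ∈ Z) ∧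
      q ^ m * ∑ v ∈ T, w v ≤ ∑ v ∈ T.filter (fun v => ∀ x ∈ l, R x v), w v := by
  induction m with
  | zero => exact ⟨[], rfl, List.nodup_nil, by simp, by simp⟩
  | succ m ih =>
    obtain ⟨l, l1, l2, l3, l4⟩ := ih (by omega)
    have hlc : (l.toFinset).card ≤ m := by rw [← l1]; exact List.toFinset_card_le l
    have hm1 : (m : ℝ) + 1 ≤ j := by exact_mod_cast hm
    obtain ⟨x, hx, hx'⟩ := avgS (S := Z \ l.toFinset) (T := T.filter (fun v => ∀ x ∈ l, R x v)) hw R (q := q)
      (N := X.card) hq.le (by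
        rw [sdiff_nonempty]
        intro hsub
        have h1 : (Z.card : ℝ) ≤ m := by exact_mod_cast (card_le_card hsub).trans hlc
        linarith) (by exact_mod_cast card_le_card (sdiff_subset.trans hZX)) (by
        intro v hv
        have h1 := h v (mem_filter.1 hv).1
        have h2 : (Z.filter (fun x => R x v)).card ≤ ((Z \ l.toFinset).filter (fun x => R x v)).card + l.toFinset.card := by
          rw [← card_union_of_disjoint]
          · refine card_le_card fun x hx => ?_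
            rw [mem_filter] at hx
            rw [mem_union, mem_filter, mem_sdiff]
            by_cases hxl : x ∈ l.toFinset
            · exact Or.inr hxl
            · exact Or.inl ⟨⟨hx.1, hxl⟩, hx.2⟩
          · rw [disjoint_left]
            intro x hx hxl
            exact (mem_sdiff.1 (mem_filter.1 hx).1).2 hxl
        have h3 : ((Z.filter (fun x => R x v)).card : ℝ) ≤ ((Z \ l.toFinset).filter (fun x => R x v)).card + m := by
          exact_mod_cast h2.trans (Nat.add_le_add_left hlc _)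
        linarith)
    rw [mem_sdiff, List.mem_toFinset] at hx
    refine ⟨x :: l, by rw [List.length_cons, l1], List.nodup_cons.2 ⟨hx.2, l2⟩, ?_, ?_⟩
    · intro y hy
      rcases List.mem_cons.1 hy with rfl | hy
      · exact hx.1
      · exact l3 y hy
    · have h5 : T.filter (fun v => ∀ y ∈ x :: l, R y v) = (T.filter (fun v => ∀ x ∈ l, R x v)).filter (fun v => R x v) := by
        ext v
        simp only [mem_filter, List.mem_cons, forall_eq_or_imp]
        tauto
      rw [h5]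
      refine le_trans ?_ hx'
      rw [pow_succ, mul_comm (q ^ m) q, mul_assoc]
      exact mul_le_mul_of_nonneg_left l4 hq.le

/-- the star for sinks -/
private theorem star_true (b : ℕ) {c : ℝ} (hc : 0 < c) : ∃ p μ : ℝ, 0 < p ∧ p ≤ 1 ∧ 0 < μ ∧ ∃ n₀ : ℕ,
    ∀ {V : Type} {R : V → V → Prop},
    AE32.Tour R → ∀ (X A : Finset V), A ⊆ X → n₀ ≤ X.card → c * X.card ≤ (A.card : ℝ) → ∀ (w : V → ℝ),
      (∀ v, 0 ≤ w v) → ∀ Bad : Finset V, (Bad.card : ℝ) ≤ μ * X.card → ∀ m ≤ b + 1,
        ∃ h ∈ A, h ∉ Bad ∧ ∃ l : List V, l.length = m ∧ l.Nodup ∧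
          (∀ x ∈ l, x ∈ X ∧ x ∉ Bad ∧ x ≠ h ∧ Adj R true x h) ∧
          p * ∑ v ∈ X.filter (fun v => Tp R X A true v), w v ≤
            ∑ v ∈ X.filter (fun v => Tp R X A true v ∧ ∀ x ∈ l, Adj R true x v), w v := by
  obtain ⟨c', hc'⟩ : ∃ c', c' = min c 1 := ⟨_, rfl⟩
  have c0 : 0 < c' := by rw [hc']; exact lt_min hc one_pos
  have c1 : c' ≤ 1 := by rw [hc']; exact min_le_right _ _
  have cc : c' ≤ c := by rw [hc']; exact min_le_left _ _
  obtain ⟨q, hq⟩ : ∃ q, q = c' / 128 := ⟨_, rfl⟩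
  have q0 : 0 < q := by rw [hq]; positivity
  have q1 : q ≤ 1 := by rw [hq]; linarith
  refine ⟨c' ^ 2 / 64 * q ^ (b + 1), c' ^ 2 / 64, by positivity, ?_, by positivity, ⌈(b + 2) / q⌉₊ + 1, ?_⟩
  · have h1 : q ^ (b + 1) ≤ 1 := pow_le_one₀ q0.le q1
    have h2 : c' ^ 2 / 64 ≤ 1 := by nlinarith
    exact mul_le_one₀ h2 (by positivity) h1
  intro V R hT X A hAX hn hcA w hw Bad hBad m hm
  obtain ⟨n, hnd⟩ : ∃ n : ℝ, n = X.card := ⟨_, rfl⟩
  obtain ⟨α, hα⟩ : ∃ α : ℝ, α = A.card := ⟨_, rfl⟩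
  rw [← hnd] at hBad hcA
  rw [← hα] at hcA
  have hn0 : 0 < n := by
    rw [hnd]
    exact_mod_cast (by omega : 0 < X.card)
  have hbq : (b + 2 : ℝ) ≤ q * n := by
    have h1 : (b + 2 : ℝ) / q ≤ n := by
      refine (Nat.le_ceil _).trans ?_
      rw [hnd]
      exact_mod_cast (by omega : ⌈((b : ℝ) + 2) / q⌉₊ ≤ X.card)
    rw [div_le_iff₀ q0] at h1
    linarith
  have hαn : α ≤ n := by rw [hα, hnd]; exact_mod_cast card_le_card hAX
  have hcα : c' * n ≤ α := (mul_le_mul_of_nonneg_right cc hn0.le).trans hcA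
  have hα0 : 0 < α := lt_of_lt_of_le (by positivity) hcα
  have hcsq : c' ^ 2 ≤ c' := by nlinarith
  have hsq : c' ^ 2 * n ≤ c' * α := by nlinarith
  -- the number of arcs to `h`
  obtain ⟨P, hP⟩ : ∃ P : V → V → ℝ, P = fun h v => ((X.filter (fun u => R u h ∧ R u v)).card : ℝ) := ⟨_, rfl⟩
  have hPn : ∀ h v, P h v ≤ n := by
    intro h v
    rw [hP, hnd]
    show ((X.filter (fun u => R u h ∧ R u v)).card : ℝ) ≤ X.card
    exact_mod_cast card_le_card (filter_subset _ _)
  obtain ⟨T, hTd⟩ : ∃ T, T = X.filter (fun v => Tp R X A true v) := ⟨_, rfl⟩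
  have hTp : ∀ v ∈ T, α ^ 2 / 16 ≤ ∑ h ∈ A, P h v := by
    intro v hv
    rw [hTd, mem_filter] at hv
    have := hv.2
    unfold Tp at this
    rw [hα, hP]
    simpa [Adj] using this
  -- the choice of `h`
  obtain ⟨h, hh, hhw⟩ := avgS (S := A \ Bad) (T := T) hw (fun h v => α / 32 ≤ P h v) (q := c' ^ 2 / 64) (N := n)
    (by positivity) (by
      rw [sdiff_nonempty]
      intro hsub
      have h1 : α ≤ Bad.card := by rw [hα]; exact_mod_cast card_le_card hsub
      nlinarith) (by rw [hnd]; exact_mod_cast card_le_card (sdiff_subset.trans hAX)) (by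
      intro v hv
      obtain ⟨H, hH⟩ : ∃ H, H = A.filter (fun h => α / 32 ≤ P h v) := ⟨_, rfl⟩
      have h1 : ∑ h ∈ A, P h v ≤ H.card * n + α * (α / 32) := by
        rw [← sum_filter_add_sum_filter_not A (fun h => α / 32 ≤ P h v), ← hH]
        refine add_le_add ?_ ?_
        · refine (sum_le_sum (g := fun _ => n) fun h _ => hPn h v).trans ?_
          rw [sum_const, nsmul_eq_mul]
        · refine (sum_le_sum (g := fun _ => α / 32) fun h hh => (not_le.1 (mem_filter.1 hh).2).le).trans ?_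
          rw [sum_const, nsmul_eq_mul, hα]
          refine mul_le_mul_of_nonneg_right ?_ (by positivity)
          exact_mod_cast card_le_card (filter_subset _ _)
      have h2 := hTp v hv
      have h3 : α ^ 2 / 32 ≤ H.card * n := by nlinarith
      have h4 : c' ^ 2 / 32 * n ≤ H.card := by
        have h5 : c' ^ 2 * n * n ≤ α ^ 2 := by nlinarith
        have h6 : (c' ^ 2 / 32 * n) * n ≤ H.card * n := by nlinarith
        exact le_of_mul_le_mul_right h6 hn0
      have h7 : H.card ≤ ((A \ Bad).filter (fun h => α / 32 ≤ P h v)).card + Bad.card := by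
        rw [hH]
        refine (card_le_card ?_).trans (card_union_le _ _)
        intro h hh
        rw [mem_filter] at hh
        rw [mem_union, mem_filter, mem_sdiff]
        by_cases hb : h ∈ Bad
        · exact Or.inr hb
        · exact Or.inl ⟨⟨hh.1, hb⟩, hh.2⟩
      have h8 : (H.card : ℝ) ≤ ((A \ Bad).filter (fun h => α / 32 ≤ P h v)).card + Bad.card := by exact_mod_cast h7
      linarith)
  rw [mem_sdiff] at hh
  obtain ⟨Z, hZ⟩ : ∃ Z, Z = (X \ Bad).filter (fun u => R u h) := ⟨_, rfl⟩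
  have hZX : Z ⊆ X := by
    rw [hZ]
    exact (filter_subset _ _).trans sdiff_subset
  have hcount : ∀ v ∈ T.filter (fun v => α / 32 ≤ P h v), 2 * (q * (X.card : ℝ)) ≤ ((Z.filter (fun x => R x v)).card : ℝ) := by
    intro v hv
    have h1 := (mem_filter.1 hv).2
    have h2 : (X.filter (fun u => R u h ∧ R u v)).card ≤ (Z.filter (fun x => R x v)).card + Bad.card := by
      refine (card_le_card ?_).trans (card_union_le _ _)
      intro u hu
      rw [mem_filter] at hu
      rw [mem_union, hZ, mem_filter, mem_filter, mem_sdiff]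
      by_cases hb : u ∈ Bad
      · exact Or.inr hb
      · exact Or.inl ⟨⟨⟨hu.1, hb⟩, hu.2.1⟩, hu.2.2⟩
    have h3 : P h v ≤ ((Z.filter (fun x => R x v)).card : ℝ) + Bad.card := by
      rw [hP]
      show ((X.filter (fun u => R u h ∧ R u v)).card : ℝ) ≤ _
      exact_mod_cast h2
    rw [← hnd, hq]
    have h4 : c' ^ 2 / 64 * n ≤ c' * n / 64 := by nlinarith
    linarith
  by_cases hTe : (T.filter (fun v => α / 32 ≤ P h v)).Nonempty
  · obtain ⟨v₀, hv₀⟩ := hTe
    have hZc : ((b + 1 : ℕ) : ℝ) < Z.card := by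
      have h1 := hcount v₀ hv₀
      have h2 : ((Z.filter (fun x => R x v₀)).card : ℝ) ≤ Z.card := by exact_mod_cast card_le_card (filter_subset _ _)
      rw [← hnd] at h1
      push_cast
      linarith
    obtain ⟨l, l1, l2, l3, l4⟩ := star_aux hw hZX q0 (j := b + 1) (by rw [← hnd]; push_cast; linarith) hcount hZc m hm
    refine ⟨h, hh.1, hh.2, l, l1, l2, ?_, ?_⟩
    · intro x hx
      have h1 := l3 x hx
      rw [hZ, mem_filter, mem_sdiff] at h1
      refine ⟨h1.1.1, h1.1.2, ?_, by simpa [Adj] using h1.2⟩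
      rintro rfl
      exact hT.irr _ h1.2
    · have hW : 0 ≤ ∑ v ∈ T, w v := sum_nonneg fun v _ => hw v
      have h1 : q ^ (b + 1) ≤ q ^ m := pow_le_pow_of_le_one q0.le q1 hm
      rw [← hTd]
      calc c' ^ 2 / 64 * q ^ (b + 1) * ∑ v ∈ T, w v
          = q ^ (b + 1) * (c' ^ 2 / 64 * ∑ v ∈ T, w v) := by ring
        _ ≤ q ^ m * (c' ^ 2 / 64 * ∑ v ∈ T, w v) := mul_le_mul_of_nonneg_right h1 (by positivity)
        _ ≤ q ^ m * ∑ v ∈ T.filter (fun v => α / 32 ≤ P h v), w v := mul_le_mul_of_nonneg_left hhw (by positivity)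
        _ ≤ _ := l4
        _ ≤ _ := by
          refine sum_le_sum_of_subset_of_nonneg ?_ fun v _ _ => hw v
          intro v hv
          rw [mem_filter, mem_filter, hTd, mem_filter] at hv
          rw [mem_filter]
          exact ⟨hv.1.1.1, hv.1.1.2, fun x hx => by simpa [Adj] using hv.2 x hx⟩
  · -- no weight: any vertex with many in-neighbours
    rw [not_nonempty_iff_eq_empty] at hTe
    rw [hTe, sum_empty] at hhw
    have hW : 0 ≤ ∑ v ∈ T, w v := sum_nonneg fun v _ => hw v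
    have hW0 : ∑ v ∈ T, w v = 0 := by
      refine le_antisymm ?_ hW
      by_contra hcon
      push Not at hcon
      have : 0 < c' ^ 2 / 64 * ∑ v ∈ T, w v := by positivity
      linarith
    obtain ⟨j, hj⟩ : ∃ j, j = ⌊α / 8⌋₊ := ⟨_, rfl⟩
    have hj1 : (j : ℝ) ≤ α / 8 := by rw [hj]; exact Nat.floor_le (by positivity)
    have hlow := card_low (R := fun a b => R b a) ⟨fun a => hT.irr a, fun a b hab => (hT.tot a b hab).symm,
      fun a b hab => hT.asym b a hab⟩ A j
    have hbig : (128 : ℝ) ≤ α := by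
      have h1 : q * n ≤ α / 128 := by rw [hq]; linarith
      have h2 : (0 : ℝ) ≤ b := Nat.cast_nonneg _
      linarith
    have hBα : (Bad.card : ℝ) ≤ α / 64 := by
      have h4 : c' ^ 2 * n ≤ c' * n := mul_le_mul_of_nonneg_right hcsq hn0.le
      linarith
    obtain ⟨h₂, k1, k2, k3⟩ : ∃ h₂ ∈ A, h₂ ∉ Bad ∧ α / 8 < ((nI R A h₂).card : ℝ) := by
      by_contra hcon
      push Not at hcon
      have h1 : A ⊆ Bad ∪ A.filter (fun v => (nO (fun a b => R b a) A v).card ≤ j) := by
        intro h hh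
        rw [mem_union, mem_filter]
        by_cases hb : h ∈ Bad
        · exact Or.inl hb
        · exact Or.inr ⟨hh, by rw [hj]; exact Nat.le_floor (hcon h hh hb)⟩
      have h2 : A.card ≤ Bad.card + (2 * j + 1) :=
        (card_le_card h1).trans ((card_union_le _ _).trans (Nat.add_le_add_left hlow _))
      have h3 : α ≤ Bad.card + (2 * j + 1) := by rw [hα]; exact_mod_cast h2
      linarith
    obtain ⟨Z₂, hZ₂⟩ : ∃ Z₂, Z₂ = (nI R A h₂) \ Bad := ⟨_, rfl⟩
    have h5 : m ≤ Z₂.card := by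
      have h6 : (nI R A h₂).card ≤ Z₂.card + Bad.card := by
        rw [hZ₂]
        exact card_le_card_sdiff_add_card
      have h7 : ((nI R A h₂).card : ℝ) ≤ Z₂.card + Bad.card := by exact_mod_cast h6
      have h8 : (m : ℝ) ≤ Z₂.card := by
        have h9 : (m : ℝ) ≤ b + 1 := by exact_mod_cast hm
        have h10 : q * n ≤ α / 128 := by rw [hq]; linarith
        linarith
      exact_mod_cast h8
    obtain ⟨Z₃, z1, z2⟩ := exists_subset_card_eq h5
    refine ⟨h₂, k1, k2, Z₃.toList, by rw [length_toList, z2], nodup_toList _, ?_, ?_⟩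
    · intro x hx
      have h6 := z1 (mem_toList.1 hx)
      rw [hZ₂, mem_sdiff, mem_nI] at h6
      refine ⟨hAX h6.1.1, h6.2, ?_, by simpa [Adj] using h6.1.2⟩
      rintro rfl
      exact hT.irr _ h6.1.2
    · rw [← hTd, hW0, mul_zero]
      exact sum_nonneg fun v _ => hw v

theorem star (b : ℕ) {c : ℝ} (hc : 0 < c) : ∃ p μ : ℝ, 0 < p ∧ p ≤ 1 ∧ 0 < μ ∧ ∃ n₀ : ℕ, ∀ {V : Type} {R : V → V → Prop},
    AE32.Tour R → ∀ (X A : Finset V), A ⊆ X → n₀ ≤ X.card → c * X.card ≤ (A.card : ℝ) → ∀ (σ : Bool) (w : V → ℝ),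
      (∀ v, 0 ≤ w v) → ∀ Bad : Finset V, (Bad.card : ℝ) ≤ μ * X.card → ∀ m ≤ b + 1,
        ∃ h ∈ A, h ∉ Bad ∧ ∃ l : List V, l.length = m ∧ l.Nodup ∧
          (∀ x ∈ l, x ∈ X ∧ x ∉ Bad ∧ x ≠ h ∧ Adj R σ x h) ∧
          p * ∑ v ∈ X.filter (fun v => Tp R X A σ v), w v ≤
            ∑ v ∈ X.filter (fun v => Tp R X A σ v ∧ ∀ x ∈ l, Adj R σ x v), w v := by
  obtain ⟨p, μ, h1, h2, h3, n₀, h4⟩ := star_true b hc
  refine ⟨p, μ, h1, h2, h3, n₀, ?_⟩
  intro V R hT X A hAX hn hcA σ w hw Bad hBad m hm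
  cases σ with
  | true => exact h4 hT X A hAX hn hcA w hw Bad hBad m hm
  | false =>
    obtain ⟨h, g1, g2, l, g3, g4, g5, g6⟩ := h4 (R := fun a b => R b a) ⟨fun a => hT.irr a,
      fun a b hab => (hT.tot a b hab).symm, fun a b hab => hT.asym b a hab⟩ X A hAX hn hcA w hw Bad hBad m hm
    refine ⟨h, g1, g2, l, g3, g4, fun x hx => ?_, ?_⟩
    · obtain ⟨a1, a2, a3, a4⟩ := g5 x hx
      exact ⟨a1, a2, a3, by simpa [Adj] using a4⟩
    · simpa [Tp, Adj] using g6

theorem star_sp (b : ℕ) {c : ℝ} (hc : 0 < c) : ∃ μ : ℝ, 0 < μ ∧ ∃ n₀ : ℕ, ∀ {V : Type} {R : V → V → Prop},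
    AE32.Tour R → ∀ (X A : Finset V), A ⊆ X → n₀ ≤ X.card → c * X.card ≤ (A.card : ℝ) → ∀ Bad : Finset V,
      (Bad.card : ℝ) ≤ μ * X.card → ∀ m ≤ b + 1, ∃ l : List V, l.length = m ∧ l.Nodup ∧ (∀ x ∈ l, x ∈ X ∧ x ∉ Bad) ∧
        (1 / 8) ^ m * (A.card : ℝ) ≤ ((A.filter (fun h => ∀ x ∈ l, R x h)).card : ℝ) := by
  obtain ⟨g, hg⟩ : ∃ g : ℝ, g = c * (1 / 8) ^ (b + 1) := ⟨_, rfl⟩
  have g0 : 0 < g := by rw [hg]; positivity
  refine ⟨g / 4, by positivity, ⌈8 / g⌉₊ + 1, ?_⟩
  intro V R hT X A hAX hn hcA Bad hBad m hm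
  have hgn : 8 ≤ g * (X.card : ℝ) := by
    have h1 : 8 / g ≤ (X.card : ℝ) := (Nat.le_ceil _).trans (by exact_mod_cast (by omega : ⌈8 / g⌉₊ ≤ X.card))
    rw [div_le_iff₀ g0] at h1
    linarith
  induction m with
  | zero => exact ⟨[], rfl, List.nodup_nil, by simp, by simp⟩
  | succ m ih =>
    obtain ⟨l, l1, l2, l3, l4⟩ := ih (by omega)
    obtain ⟨B, hB⟩ : ∃ B, B = A.filter (fun h => ∀ x ∈ l, R x h) := ⟨_, rfl⟩
    rw [← hB] at l4
    have hBg : g * (X.card : ℝ) ≤ B.card := by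
      refine le_trans ?_ l4
      have h1 : ((1 : ℝ) / 8) ^ (b + 1) ≤ (1 / 8) ^ m := pow_le_pow_of_le_one (by norm_num) (by norm_num) (by omega)
      calc g * (X.card : ℝ) = (1 / 8) ^ (b + 1) * (c * X.card) := by rw [hg]; ring
        _ ≤ (1 / 8) ^ (b + 1) * A.card := mul_le_mul_of_nonneg_left hcA (by positivity)
        _ ≤ (1 / 8) ^ m * A.card := mul_le_mul_of_nonneg_right h1 (by positivity)
    obtain ⟨j, hj⟩ : ∃ j, j = ⌊(B.card : ℝ) / 8⌋₊ := ⟨_, rfl⟩
    have hj1 : (j : ℝ) ≤ B.card / 8 := by rw [hj]; exact Nat.floor_le (by positivity)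
    have hlow := card_low hT B j
    obtain ⟨x, k1, k2, k3⟩ : ∃ x ∈ B, x ∉ Bad ∧ (B.card : ℝ) / 8 < ((nO R B x).card : ℝ) := by
      by_contra hcon
      push Not at hcon
      have h1 : B ⊆ Bad ∪ B.filter (fun v => (nO R B v).card ≤ j) := by
        intro h hh
        rw [mem_union, mem_filter]
        by_cases hb : h ∈ Bad
        · exact Or.inl hb
        · exact Or.inr ⟨hh, by rw [hj]; exact Nat.le_floor (hcon h hh hb)⟩
      have h2 : B.card ≤ Bad.card + (2 * j + 1) :=
        (card_le_card h1).trans ((card_union_le _ _).trans (Nat.add_le_add_left hlow _))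
      have h3 : (B.card : ℝ) ≤ Bad.card + (2 * j + 1) := by exact_mod_cast h2
      linarith
    have hxA : x ∈ A ∧ ∀ y ∈ l, R y x := by
      rw [hB, mem_filter] at k1
      exact k1
    refine ⟨x :: l, by rw [List.length_cons, l1], List.nodup_cons.2 ⟨fun hxl => hT.irr _ (hxA.2 x hxl), l2⟩, ?_, ?_⟩
    · intro y hy
      rcases List.mem_cons.1 hy with rfl | hy
      · exact ⟨hAX hxA.1, k2⟩
      · exact l3 y hy
    · have h5 : A.filter (fun h => ∀ y ∈ x :: l, R y h) = nO R B x := by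
        ext v
        rw [hB]
        simp only [mem_filter, mem_nO, List.mem_cons, forall_eq_or_imp]
        tauto
      rw [h5, pow_succ]
      linarith

end AEV
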